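import Mathlib
import Pool.Agent.MP_807c24_nt.H28.Defs

/-! Link between words and nested series. -/

namespace Pool.Agent.MP_807c24_nt.H17

open Finset Pool.Agent.MP_807c24_nt.H28

/-- the word of an index -/
def word : (r : ℕ) → (Fin r → ℕ) → List Bool
  | 0, _ => []
  | r + 1, s => List.replicate (s 0 - 1) false ++ true :: word r (Fin.tail s)

theorem good_rep (e : ℕ) (w : List Bool) (h : good w) :
    good (List.replicate e false ++ true :: w) := by
  induction e with
  | zero => simpa [good] using h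
  | succ e ih =>
    rw [List.replicate_succ, List.cons_append]
    exact ⟨by simp, ih⟩

theorem good_word : ∀ (r : ℕ) (s : Fin r → ℕ), good (word r s)
  | 0, _ => by simp [word, good]
  | r + 1, s => good_rep _ _ (good_word r _)

theorem dep_word : ∀ (r : ℕ) (s : Fin r → ℕ), dep (word r s) = r
  | 0, _ => by simp [word, dep]
  | r + 1, s => by
    have := dep_word r (Fin.tail s)
    simp only [dep] at this
    simp [word, dep, List.count_append, List.count_replicate, this]

theorem length_word : ∀ (r : ℕ) (s : Fin r → ℕ), (∀ i, 1 ≤ s i) → (word r s).length = ∑ i, s i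
  | 0, _, _ => by simp [word]
  | r + 1, s, h => by
    have h1 := length_word r (Fin.tail s) (fun i => h _)
    have h0 := h 0
    rw [Fin.sum_univ_succ]
    simp only [word, List.length_append, List.length_replicate, List.length_cons, h1, Fin.tail]
    omega

theorem exists_word : ∀ w : List Bool, good w →
    ∃ (r : ℕ) (s : Fin r → ℕ), (∀ i, 1 ≤ s i) ∧ w = word r s
  | [], _ => ⟨0, fun i => i.elim0, fun i => i.elim0, rfl⟩
  | true :: w, h => by
    obtain ⟨r, s, h1, h2⟩ := exists_word w h
    refine ⟨r + 1, Fin.cons 1 s, fun i => ?_, ?_⟩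
    · refine Fin.cases ?_ (fun j => ?_) i
      · simp
      · simpa using h1 j
    · simp [word, h2]
  | false :: w, h => by
    obtain ⟨r, s, h1, h2⟩ := exists_word w h.2
    cases r with
    | zero => exact absurd h2 h.1
    | succ r =>
      refine ⟨r + 1, Fin.cons (s 0 + 1) (Fin.tail s), fun i => ?_, ?_⟩
      · refine Fin.cases ?_ (fun j => ?_) i
        · simp
        · simpa [Fin.tail] using h1 j.succ
      · have h0 := h1 0
        obtain ⟨e, he⟩ : ∃ e, s 0 = e + 1 := ⟨s 0 - 1, by omega⟩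
        rw [h2]
        simp [word, he, List.replicate_succ]

theorem head_word (r : ℕ) (s : Fin r → ℕ) (h1 : ∀ i, 1 ≤ s i) :
    (word r s).head? ≠ some true ↔ ∀ h : 0 < r, 2 ≤ s ⟨0, h⟩ := by
  cases r with
  | zero => simp [word]
  | succ r =>
    have h0 := h1 0
    obtain ⟨e, he⟩ : ∃ e, s 0 = e + 1 := ⟨s 0 - 1, by omega⟩
    cases e with
    | zero => simp [word, he]
    | succ e => simp [word, he, List.replicate_succ]

theorem coef_rep (e : ℕ) (w : List Bool) (j : ℕ) :
    coef (List.replicate e false ++ true :: w) j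
      = (∑ i ∈ range j, coef w i) / (j : ℝ) ^ (e + 1) := by
  induction e with
  | zero => simp [coef, op1]
  | succ e ih =>
    rw [List.replicate_succ, List.cons_append]
    simp only [coef, op0]
    rw [ih, div_div, ← pow_succ]

open Classical in
/-- strictly decreasing positive tuples below `k` -/
noncomputable def P (r k : ℕ) : Finset (Fin r → ℕ) :=
  (Fintype.piFinset fun _ : Fin r => range k).filter fun m => StrictAnti m ∧ ∀ i, 0 < m i

theorem mem_P {r k : ℕ} {m : Fin r → ℕ} :
    m ∈ P r k ↔ (∀ i, m i < k) ∧ StrictAnti m ∧ ∀ i, 0 < m i := by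
  simp [P, Fintype.mem_piFinset]

theorem cons_mem_P {r k j : ℕ} {m : Fin r → ℕ} :
    (Fin.cons j m : Fin (r + 1) → ℕ) ∈ P (r + 1) k ↔ (j < k ∧ 0 < j) ∧ m ∈ P r j := by
  rw [mem_P, mem_P]
  constructor
  · rintro ⟨h1, h2, h3⟩
    refine ⟨⟨by simpa using h1 0, by simpa using h3 0⟩, fun i => ?_, fun a b hab => ?_,
      fun i => by simpa using h3 i.succ⟩
    · simpa using h2 (Fin.succ_pos i)
    · simpa using h2 (Fin.succ_lt_succ_iff.mpr hab)
  · rintro ⟨⟨h1, h2⟩, h3, h4, h5⟩
    refine ⟨fun i => ?_, fun a b hab => ?_, fun i => ?_⟩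
    · refine Fin.cases ?_ (fun i => ?_) i
      · simpa using h1
      · simpa using (h3 i).trans h1
    · revert hab
      refine Fin.cases ?_ (fun b => ?_) b
      · intro hab
        exact absurd hab (Fin.not_lt_zero _)
      · refine Fin.cases ?_ (fun a => ?_) a
        · intro _
          simpa using h3 b
        · intro hab
          simpa using h4 (Fin.succ_lt_succ_iff.mp hab)
    · refine Fin.cases ?_ (fun i => ?_) i
      · simpa using h2
      · simpa using h5 i

theorem sum_P_succ (r k : ℕ) (f : (Fin (r + 1) → ℕ) → ℝ) :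
    ∑ m ∈ P (r + 1) k, f m
      = ∑ j ∈ (range k).filter (0 < ·), ∑ m ∈ P r j, f (Fin.cons j m) := by
  rw [Finset.sum_sigma']
  refine Finset.sum_bij' (fun m _ => ⟨m 0, Fin.tail m⟩) (fun x _ => Fin.cons x.1 x.2)
    ?_ ?_ ?_ ?_ ?_
  · intro m hm
    rw [← Fin.cons_self_tail m, cons_mem_P] at hm
    simpa using hm
  · intro x hx
    rw [cons_mem_P]
    simpa using hx
  · intro m _
    simp
  · intro x _
    simp
  · intro m _
    simp

theorem sum_coef : ∀ (r : ℕ) (s : Fin r → ℕ), (∀ i, 1 ≤ s i) → ∀ k, 0 < k →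
    ∑ j ∈ range k, coef (word r s) j = ∑ m ∈ P r k, ∏ i, (((m i : ℕ) : ℝ) ^ (s i))⁻¹
  | 0, s, _, k, hk => by
    have : P 0 k = univ := by
      ext m
      simp only [mem_P, mem_univ, iff_true]
      exact ⟨fun i => i.elim0, fun i => i.elim0, fun i => i.elim0⟩
    simp [word, coef, this, hk]
  | r + 1, s, h, k, _ => by
    rw [sum_P_succ, Finset.sum_filter]
    refine Finset.sum_congr rfl fun j _ => ?_
    have h0 := h 0
    have e : s 0 - 1 + 1 = s 0 := by omega
    rw [word, coef_rep, e]
    split_ifs with hj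
    · rw [sum_coef r (Fin.tail s) (fun i => h _) j hj, Finset.sum_div]
      refine Finset.sum_congr rfl fun m _ => ?_
      rw [Fin.prod_univ_succ]
      simp only [Fin.cons_zero, Fin.cons_succ, Fin.tail]
      rw [div_eq_mul_inv, mul_comm]
    · obtain rfl : j = 0 := by omega
      simp

theorem coef_nonneg : ∀ (w : List Bool) (k : ℕ), 0 ≤ coef w k
  | [], k => by
    simp only [coef]
    split_ifs <;> norm_num
  | false :: w, k => div_nonneg (coef_nonneg w k) (Nat.cast_nonneg _)
  | true :: w, k =>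
    div_nonneg (Finset.sum_nonneg fun j _ => coef_nonneg w j) (Nat.cast_nonneg _)

theorem sum_inv_sqrt (k : ℕ) : ∑ j ∈ range k, 1 / √((j : ℝ) + 1) ≤ 2 * √(k : ℝ) := by
  induction k with
  | zero => simp
  | succ k ih =>
    rw [Finset.sum_range_succ]
    have h1 : 0 < √((k : ℝ) + 1) := Real.sqrt_pos.mpr (by positivity)
    have h2 : 0 ≤ √(k : ℝ) := Real.sqrt_nonneg _
    have h3 : √((k : ℝ) + 1) ^ 2 = k + 1 := Real.sq_sqrt (by positivity)
    have h4 : √(k : ℝ) ^ 2 = k := Real.sq_sqrt (by positivity)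
    have h5 : 1 / √((k : ℝ) + 1) ≤ 2 * √((k : ℝ) + 1) - 2 * √(k : ℝ) := by
      rw [div_le_iff₀ h1]
      nlinarith [sq_nonneg (√((k : ℝ) + 1) - √(k : ℝ))]
    push_cast
    linarith

theorem coef_le : ∀ (w : List Bool) (k : ℕ), coef w k ≤ 3 ^ w.length / √((k : ℝ) + 1)
  | [], k => by
    simp only [coef]
    split_ifs with h
    · simp [h]
    · positivity
  | false :: w, k => by
    have ih := coef_le w k
    have h0 := coef_nonneg w k
    simp only [coef, op0, List.length_cons]
    rcases Nat.eq_zero_or_pos k with rfl | hk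
    · simp
    · have hk1 : (1 : ℝ) ≤ k := by exact_mod_cast hk
      calc coef w k / k ≤ coef w k := div_le_self h0 hk1
        _ ≤ 3 ^ w.length / √((k : ℝ) + 1) := ih
        _ ≤ _ := by
          gcongr
          · norm_num
          · omega
  | true :: w, k => by
    simp only [coef, op1, List.length_cons]
    rcases Nat.eq_zero_or_pos k with rfl | hk
    · simp
    · have hk1 : (1 : ℝ) ≤ k := by exact_mod_cast hk
      have h1 : ∑ j ∈ range k, coef w j ≤ 3 ^ w.length * (2 * √(k : ℝ)) := by
        calc ∑ j ∈ range k, coef w j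
            ≤ ∑ j ∈ range k, 3 ^ w.length * (1 / √((j : ℝ) + 1)) :=
              Finset.sum_le_sum fun j _ => by
                rw [mul_one_div]
                exact coef_le w j
          _ = 3 ^ w.length * ∑ j ∈ range k, 1 / √((j : ℝ) + 1) := by rw [Finset.mul_sum]
          _ ≤ _ := by
            gcongr
            exact sum_inv_sqrt k
      have h2 : 0 < √((k : ℝ) + 1) := Real.sqrt_pos.mpr (by positivity)
      have h3 : 0 ≤ √(k : ℝ) := Real.sqrt_nonneg _
      have h4 : √((k : ℝ) + 1) ^ 2 = k + 1 := Real.sq_sqrt (by positivity)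
      have h5 : √(k : ℝ) ^ 2 = k := Real.sq_sqrt (by positivity)
      have h6 : 2 * √(k : ℝ) * √((k : ℝ) + 1) ≤ 3 * k := by
        nlinarith [sq_nonneg (√((k : ℝ) + 1) - √(k : ℝ))]
      rw [div_le_div_iff₀ (by positivity) h2, pow_succ]
      calc (∑ j ∈ range k, coef w j) * √((k : ℝ) + 1)
          ≤ 3 ^ w.length * (2 * √(k : ℝ)) * √((k : ℝ) + 1) := by gcongr
        _ = 3 ^ w.length * (2 * √(k : ℝ) * √((k : ℝ) + 1)) := by ring
        _ ≤ 3 ^ w.length * (3 * k) := by gcongr
        _ = _ := by ring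

theorem summable_false (w : List Bool) : Summable (coef (false :: w)) := by
  have hs : Summable fun k : ℕ => (3 : ℝ) ^ w.length * (1 / (k : ℝ) ^ (3 / 2 : ℝ)) :=
    (Real.summable_one_div_nat_rpow.mpr (by norm_num)).mul_left _
  refine Summable.of_nonneg_of_le (coef_nonneg _) (fun k => ?_) hs
  simp only [coef, op0]
  rcases Nat.eq_zero_or_pos k with rfl | hk
  · simp
  · have hk1 : (0 : ℝ) < k := by exact_mod_cast hk
    have e : (k : ℝ) ^ (3 / 2 : ℝ) = √(k : ℝ) * k := by
      rw [Real.sqrt_eq_rpow, ← Real.rpow_add_one hk1.ne']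
      norm_num
    have h2 : 0 < √(k : ℝ) := Real.sqrt_pos.mpr hk1
    rw [e, mul_one_div, ← div_div]
    gcongr
    refine (coef_le w k).trans ?_
    gcongr
    linarith

theorem summable_head (w : List Bool) (h : w.head? ≠ some true) :
    Summable (coef w) ∧ zx w = ∑' k, coef w k := by
  match w, h with
  | [], _ =>
    have : HasSum (coef []) 1 := by
      simpa [coef] using hasSum_ite_eq (0 : ℕ) (1 : ℝ)
    exact ⟨this.summable, this.tsum_eq.symm⟩
  | false :: w, _ => exact ⟨summable_false w, rfl⟩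
  | true :: w, h => simp at h

theorem tsum_word (r : ℕ) (s : Fin r → ℕ) (h1 : ∀ i, 1 ≤ s i)
    (hs : Summable (coef (word r s))) : ∑' k, coef (word r s) k = mzv r s := by
  classical
  set g : (Fin r → ℕ) → ℝ := fun m => ∏ i, (((m i : ℕ) : ℝ) ^ (s i))⁻¹ with hg
  have g0 : ∀ m, 0 ≤ g m := fun m => Finset.prod_nonneg fun i _ => by positivity
  have hA : ∀ u : Finset {m : Fin r → ℕ // StrictAnti m ∧ ∀ i, 0 < m i},
      ∑ m ∈ u, g m.1 ≤ ∑' k, coef (word r s) k := by
    intro u
    set k := (u.sup fun m => univ.sup m.1) + 1 with hk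
    calc ∑ m ∈ u, g m.1 = ∑ m ∈ u.map (Function.Embedding.subtype _), g m := by
          rw [Finset.sum_map]
          rfl
      _ ≤ ∑ m ∈ P r k, g m := by
          refine Finset.sum_le_sum_of_subset_of_nonneg (fun m hm => ?_) fun m _ _ => g0 m
          obtain ⟨x, hx, rfl⟩ := Finset.mem_map.mp hm
          refine mem_P.mpr ⟨fun i => ?_, x.2.1, x.2.2⟩
          have a1 : x.1 i ≤ univ.sup x.1 := Finset.le_sup (f := x.1) (mem_univ i)
          have a2 : univ.sup x.1 ≤ u.sup fun m => univ.sup m.1 :=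
            Finset.le_sup (f := fun m : {m : Fin r → ℕ // StrictAnti m ∧ ∀ i, 0 < m i} =>
              univ.sup m.1) hx
          show x.1 i < k
          omega
      _ = ∑ j ∈ range k, coef (word r s) j := (sum_coef r s h1 k (by omega)).symm
      _ ≤ _ := hs.sum_le_tsum _ fun j _ => coef_nonneg _ j
  have hS : Summable fun m : {m : Fin r → ℕ // StrictAnti m ∧ ∀ i, 0 < m i} => g m.1 :=
    summable_of_sum_le (fun m => g0 m.1) hA
  refine le_antisymm ?_ (hS.tsum_le_of_sum_le hA)
  refine Real.tsum_le_of_sum_range_le (coef_nonneg _) fun k => ?_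
  calc ∑ j ∈ range k, coef (word r s) j ≤ ∑ j ∈ range (k + 1), coef (word r s) j := by
        rw [Finset.sum_range_succ]
        linarith [coef_nonneg (word r s) k]
    _ = ∑ m ∈ P r (k + 1), g m := sum_coef r s h1 _ (by omega)
    _ = ∑ m ∈ (P r (k + 1)).subtype fun m => StrictAnti m ∧ ∀ i, 0 < m i, g m.1 := by
        rw [Finset.sum_subtype_of_mem g fun m hm => (mem_P.mp hm).2]
    _ ≤ _ := hS.sum_le_tsum _ fun m _ => g0 m.1

theorem zx_word (r : ℕ) (s : Fin r → ℕ) (h1 : ∀ i, 1 ≤ s i)
    (h : (word r s).head? ≠ some true) : zx (word r s) = mzv r s := by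
  obtain ⟨a, b⟩ := summable_head _ h
  rw [b, tsum_word r s h1 a]

theorem mzvlink : MzvStmt := by
  refine ⟨fun w hw hh => ?_, fun r s h1 h2 => ?_⟩
  · obtain ⟨r, s, h1, h2⟩ := exists_word w hw
    have hd : dep w = r := by rw [h2, dep_word]
    subst hd
    refine ⟨s, h1, ?_, ?_, ?_⟩
    · exact (head_word _ s h1).mp (h2 ▸ hh)
    · rw [← length_word _ s h1, ← h2]
    · have := zx_word _ s h1 (h2 ▸ hh)
      rwa [← h2] at this
  · have hh := (head_word r s h1).mpr h2
    exact ⟨word r s, good_word r s, hh, dep_word r s, length_word r s h1, zx_word r s h1 hh⟩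

end Pool.Agent.MP_807c24_nt.H17
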